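import Pool.Agent.Helper80.MAH.Fin3
import Pool.Agent.Helper82.MAH.N1
import Pool.Agent.Helper71.MAH.NRM
import Pool.Agent.Helper63.MAH.CLS
import Pool.Agent.Helper57.MAH.INT
import Pool.Agent.Helper74.MAH.CMP
import Pool.Agent.Helper7.MAH.EXI
import Pool.Agent.Helper84.MAH.STB
import Pool.Agent.Helper56.MAH.FOC
import Pool.Agent.Helper56.MAH.MAS
import Pool.Agent.Helper98.MAH.GIB
import Pool.Agent.Helper89.MAH.STEP
import Pool.Agent.Helper44.MAH.STEPR
import Pool.Agent.Helper14.MAH.PATHN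
import Pool.Agent.Helper14.MAH.PATHL
import Pool.Agent.Helper54.MAH.EB
import Pool.Agent.Helper29.MAH.PZ
import Pool.Agent.Helper78.MAH.VOL
import Pool.Agent.Helper66.MAH.NLM
import Pool.Agent.Helper18.MAH.LIL
import Pool.Agent.Helper2.MAH.LIM

/-!
Assembly of Mahler's inequality for all convex bodies.
-/

set_option autoImplicit false

noncomputable section

namespace Pool.Agent.Helper80.MAH

open Helper82.MAH

theorem nrm' : Helper82.MAH.S_NRM := Pool.Agent.Helper71.MAH.NRM.main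
theorem cls' : Helper82.MAH.S_CLS := Pool.Agent.Helper63.MAH.CLS.main nrm'
theorem int' : Helper82.MAH.S_INT := Pool.Agent.Helper57.MAH.int_main
theorem itg' : Helper82.MAH.S_ITG := Pool.Agent.Helper57.MAH.itg_main nrm' cls'
theorem cmp' : Helper82.MAH.S_CMP := Helper74.MAHCMP.main cls' itg'
theorem exi' : Helper82.MAH.S_EXI := Pool.Agent.Helper7.MAH.EXI.main nrm' cls' itg'
theorem stb' : Helper82.MAH.S_STB := Pool.Agent.Helper84.MAH.STB.main nrm' itg' cmp'
theorem foc' : Helper82.MAH.S_FOC := Pool.Agent.Helper56.MAH.FOC.main nrm' cls' int' itg'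
theorem mas' : Helper82.MAH.S_MAS := Pool.Agent.Helper56.MAH.MAS.main nrm' cls' int' itg'
theorem proj' : Helper82.MAH.S_PROJ := Helper82.MAH.proj exi' stb' mas' foc'
theorem gib' : Helper82.MAH.S_GIB := Pool.Agent.Helper98.MAH.GIB.main itg'
theorem step' : Helper82.MAH.S_STEP := Pool.Agent.Helper89.MAH.STEP.main gib' itg'
theorem stepr' : Helper82.MAH.S_STEPR := Pool.Agent.Helper44.MAH.STEPR.main gib' itg'
theorem pathn' : Helper82.MAH.S_PATHN :=
  Pool.Agent.Helper14.MAHPATHN.main proj' step' stepr' gib' itg'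
theorem path' : Helper82.MAH.S_PATH := Pool.Agent.Helper14.MAHPATHL.main pathn'
theorem eb' : Helper82.MAH.S_EB := Pool.Agent.Helper54.MAH.EB.main nrm' cls' itg'
theorem pz' : Helper82.MAH.S_PZ := Helper29.MAH.PZ.main nrm'
theorem vol' : Helper82.MAH.S_VOL := Pool.Agent.Helper78.MAH.VOL.main nrm'
theorem nlm' : Helper82.MAH.S_NLM :=
  Pool.Agent.Helper66.MAH.NLM.main path' eb' pz' vol' nrm' cls' itg'
theorem lil' : Helper82.MAH.S_LIL := Pool.Agent.Helper18.MAH.LIL.main nrm' cls' itg' pz'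
theorem lim' : Helper82.MAH.S_LIM := Pool.Agent.Helper2.MAH.LIM.main nrm' int'
theorem n1' : Helper82.MAH.S_N1 := Helper82.MAH.n1 nlm' lil' lim'
theorem fin' : S_FIN := fin_of_cm (Pool.Agent.Helper68.MAH.dual (Helper82.MAH.n1' n1'))

end Pool.Agent.Helper80.MAH
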