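import Pool.Agent.Helper80.MAH.Poly

/-!
The exponential integrals of the cone over a convex body and of its dual cone.
-/

set_option autoImplicit false

noncomputable section

open MeasureTheory Set
open scoped Pointwise ENNReal Topology

namespace Pool.Agent.Helper80.MAH

variable {n : ℕ}

lemma split_lintegral (F : ℝ → (Fin n → ℝ) → ℝ≥0∞) (hF : Measurable (Function.uncurry F)) :
    ∫⁻ p : Fin (n + 1) → ℝ, F (p 0) (fun j => p j.succ) = ∫⁻ t, ∫⁻ x, F t x := by
  have h1 := (volume_preserving_piFinSuccAbove (fun _ : Fin (n + 1) => ℝ) 0).lintegral_comp hF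
  have h2 : ∫⁻ p : Fin (n + 1) → ℝ, F (p 0) (fun j => p j.succ) =
      ∫⁻ p : Fin (n + 1) → ℝ, Function.uncurry F
        (MeasurableEquiv.piFinSuccAbove (fun _ : Fin (n + 1) => ℝ) 0 p) := by
    refine lintegral_congr fun p => ?_
    rfl
  rw [h2, h1]
  exact lintegral_prod _ hF.aemeasurable

lemma exp_gamma (n : ℕ) :
    ∫⁻ t in Ioi (0 : ℝ), ENNReal.ofReal (Real.exp (-t) * t ^ n) =
      ENNReal.ofReal (n.factorial : ℝ) := by
  have h1 := Real.Gamma_eq_integral (s := (n : ℝ) + 1) (by positivity)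
  rw [Real.Gamma_nat_eq_factorial] at h1
  have h2 := Real.GammaIntegral_convergent (s := (n : ℝ) + 1) (by positivity)
  have h3 : ∀ t : ℝ, Real.exp (-t) * t ^ ((n : ℝ) + 1 - 1) = Real.exp (-t) * t ^ n := by
    intro t
    rw [add_sub_cancel_right, Real.rpow_natCast]
  simp only [h3] at h1 h2
  rw [h1, ofReal_integral_eq_lintegral_ofReal h2]
  rw [Filter.EventuallyLE, ae_restrict_iff' measurableSet_Ioi]
  refine ae_of_all _ fun t ht => ?_
  have ht' : (0 : ℝ) < t := ht
  show 0 ≤ _
  positivity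

lemma exp_tail (c : ℝ) {a : ℝ} (ha : 0 < a) :
    ∫⁻ t in Ici c, ENNReal.ofReal (Real.exp (-(a * t))) =
      ENNReal.ofReal (a⁻¹ * Real.exp (-(a * c))) := by
  have h1 : ∫⁻ t in Ici c, ENNReal.ofReal (Real.exp (-(a * t))) =
      ∫⁻ t in Ioi c, ENNReal.ofReal (Real.exp (-(a * t))) := by
    rw [setLIntegral_congr Ioi_ae_eq_Ici]
  have h2 : IntegrableOn (fun t : ℝ => Real.exp (-(a * t))) (Ioi c) := by
    have := exp_neg_integrableOn_Ioi c ha
    simpa only [neg_mul] using this
  have h3 : ∫ t in Ioi c, Real.exp (-(a * t)) = a⁻¹ * Real.exp (-(a * c)) := by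
    have := integral_exp_mul_Ioi (a := -a) (by linarith) c
    simp only [neg_mul] at this
    rw [this]
    field_simp
  rw [h1, ← h3, ofReal_integral_eq_lintegral_ofReal h2]
  exact ae_of_all _ fun t => (Real.exp_pos _).le

/-- the cone over `K` -/
def coneOver (K : Set (Fin n → ℝ)) : Set (Fin (n + 1) → ℝ) :=
  {p | 0 ≤ p 0 ∧ (fun j => p j.succ) ∈ p 0 • K}

lemma mem_smul_iff {K : Set (Fin n → ℝ)} (hc : IsCompact K) (hv : Convex ℝ K)
    (h0 : (0 : Fin n → ℝ) ∈ interior K) (t : ℝ) (x : Fin n → ℝ) :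
    (0 ≤ t ∧ x ∈ t • K) ↔ gauge K x ≤ t := by
  have hn : K ∈ 𝓝 (0 : Fin n → ℝ) := mem_interior_iff_mem_nhds.1 h0
  have habs : Absorbent ℝ K := absorbent_nhds_zero hn
  rcases lt_trichotomy t 0 with ht | rfl | ht
  · constructor
    · rintro ⟨h, -⟩; exact absurd h (not_le.2 ht)
    · intro h; exact absurd ((gauge_nonneg x).trans h) (not_le.2 ht)
  · constructor
    · rintro ⟨-, y, -, rfl⟩
      simp
    · intro h
      have h1 : gauge K x = 0 := le_antisymm h (gauge_nonneg x)
      have h2 : x = 0 := (gauge_eq_zero habs (hc.isVonNBounded ℝ)).1 h1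
      refine ⟨le_rfl, 0, interior_subset h0, by simp [h2]⟩
  · have h1 : gauge K x ≤ t ↔ gauge K (t⁻¹ • x) ≤ 1 := by
      rw [gauge_smul_of_nonneg (inv_nonneg.2 ht.le), smul_eq_mul, inv_mul_le_iff₀ ht, mul_one]
    rw [h1, gauge_le_one_iff_mem_closure hv hn, hc.isClosed.closure_eq,
      mem_smul_set_iff_inv_smul_mem₀ ht.ne']
    exact ⟨fun h => h.2, fun h => ⟨ht.le, h⟩⟩

theorem phi_cone {K : Set (Fin n → ℝ)} (hc : IsCompact K) (hv : Convex ℝ K)
    (h0 : (0 : Fin n → ℝ) ∈ interior K) :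
    ∫⁻ p in coneOver K, ENNReal.ofReal (Real.exp (-(p 0))) =
      ENNReal.ofReal (n.factorial : ℝ) * volume K := by
  have hn : K ∈ 𝓝 (0 : Fin n → ℝ) := mem_interior_iff_mem_nhds.1 h0
  have hgc : Continuous (gauge K) := continuous_gauge hv hn
  set S : Set (ℝ × (Fin n → ℝ)) := {q | gauge K q.2 ≤ q.1} with hS
  have hSm : MeasurableSet S := (isClosed_le (hgc.comp continuous_snd) continuous_fst).measurableSet
  set F : ℝ → (Fin n → ℝ) → ℝ≥0∞ := fun t x => S.indicator
    (fun q => ENNReal.ofReal (Real.exp (-q.1))) (t, x) with hF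
  have hFm : Measurable (Function.uncurry F) := by
    have e : Function.uncurry F = S.indicator (fun q => ENNReal.ofReal (Real.exp (-q.1))) := by
      ext ⟨t, x⟩; rfl
    rw [e]
    refine Measurable.indicator ?_ hSm
    exact (by fun_prop : Continuous fun q : ℝ × (Fin n → ℝ) =>
      Real.exp (-q.1)).measurable.ennreal_ofReal
  have hcone : coneOver K = {p : Fin (n + 1) → ℝ | (p 0, fun j => p j.succ) ∈ S} := by
    ext p
    exact mem_smul_iff hc hv h0 _ _
  have hcm : MeasurableSet (coneOver K) := by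
    rw [hcone]
    exact (by fun_prop : Measurable fun p : Fin (n + 1) → ℝ =>
      ((p 0, fun j => p j.succ) : ℝ × (Fin n → ℝ))) hSm
  have h1 : ∫⁻ p in coneOver K, ENNReal.ofReal (Real.exp (-(p 0))) =
      ∫⁻ p : Fin (n + 1) → ℝ, F (p 0) (fun j => p j.succ) := by
    rw [← lintegral_indicator hcm]
    refine lintegral_congr fun p => ?_
    simp only [hF, indicator, hcone, mem_ofPred_eq]
  rw [h1, split_lintegral F hFm]
  have h2 : ∀ t : ℝ, ∫⁻ x, F t x =
      ENNReal.ofReal (Real.exp (-t)) * volume {x | gauge K x ≤ t} := by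
    intro t
    have e : ∀ x, F t x = {x | gauge K x ≤ t}.indicator
        (fun _ => ENNReal.ofReal (Real.exp (-t))) x := by
      intro x
      simp only [hF, indicator, hS, mem_ofPred_eq]
    rw [lintegral_congr e, lintegral_indicator (isClosed_le hgc continuous_const).measurableSet,
      setLIntegral_const]
  have h3 : ∀ t : ℝ, t ∈ Ioi (0 : ℝ) → ENNReal.ofReal (Real.exp (-t)) *
      volume {x | gauge K x ≤ t} = ENNReal.ofReal (Real.exp (-t) * t ^ n) * volume K := by
    intro t ht
    have ht' : (0 : ℝ) < t := ht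
    have e : {x | gauge K x ≤ t} = t • K := by
      ext x
      rw [mem_ofPred_eq, ← mem_smul_iff hc hv h0]
      exact ⟨fun h => h.2, fun h => ⟨ht'.le, h⟩⟩
    rw [e, Measure.addHaar_smul, Module.finrank_fin_fun, abs_of_pos (by positivity), ← mul_assoc,
      ← ENNReal.ofReal_mul (Real.exp_pos _).le]
  have h4 : ∫⁻ t, ∫⁻ x, F t x = ∫⁻ t in Ioi (0 : ℝ), ∫⁻ x, F t x := by
    rw [← lintegral_indicator measurableSet_Ioi]
    refine lintegral_congr_ae ?_
    have h5 : ∀ᵐ t : ℝ, t ≠ 0 := by
      rw [ae_iff]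
      simp
    filter_upwards [h5] with t ht
    by_cases h : t ∈ Ioi (0 : ℝ)
    · rw [indicator_of_mem h]
    · rw [indicator_of_notMem h]
      have ht0 : t < 0 := lt_of_le_of_ne (not_lt.1 h) ht
      rw [h2]
      have : {x : Fin n → ℝ | gauge K x ≤ t} = ∅ := by
        ext x
        simp only [mem_ofPred_eq, mem_empty_iff_false, iff_false, not_le]
        exact ht0.trans_le (gauge_nonneg x)
      rw [this, measure_empty, mul_zero]
  rw [h4, setLIntegral_congr_fun measurableSet_Ioi (fun t ht => (h2 t).trans (h3 t ht)),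
    lintegral_mul_const _ (by fun_prop), exp_gamma]

/-- the dual cone of the cone over `K` -/
def dualOver (K : Set (Fin n → ℝ)) : Set (Fin (n + 1) → ℝ) :=
  {q | ∀ x ∈ K, 0 ≤ q 0 + ∑ i, x i * q i.succ}

lemma hsu_cont {K : Set (Fin n → ℝ)} (hc : IsCompact K) (hne : K.Nonempty) :
    Continuous (hsu K) := by
  obtain ⟨M, hM⟩ := hc.isBounded.exists_norm_le
  have hM0 : 0 ≤ M := by
    obtain ⟨x, hx⟩ := hne
    exact (norm_nonneg _).trans (hM x hx)
  have key : ∀ y z, hsu K y ≤ hsu K z + n * M * ‖y - z‖ := by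
    intro y z
    refine csSup_le (hne.image _) ?_
    rintro _ ⟨x, hx, rfl⟩
    have h1 : ∑ i, x i * z i ≤ hsu K z := le_csSup (bdd_hsu hc z) ⟨x, hx, rfl⟩
    have h2 : ∑ i, x i * (y i - z i) ≤ n * M * ‖y - z‖ := by
      calc ∑ i, x i * (y i - z i) ≤ ∑ _i : Fin n, M * ‖y - z‖ := by
            refine Finset.sum_le_sum fun i _ => ?_
            refine (le_abs_self _).trans ?_
            rw [abs_mul]
            have a1 : |x i| ≤ M := (norm_le_pi_norm x i).trans (hM x hx)
            have a2 : |y i - z i| ≤ ‖y - z‖ := norm_le_pi_norm (y - z) i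
            exact mul_le_mul a1 a2 (abs_nonneg _) hM0
        _ = n * M * ‖y - z‖ := by
            rw [Finset.sum_const, Finset.card_univ, Fintype.card_fin, nsmul_eq_mul]
            ring
    have h3 : ∑ i, x i * y i = ∑ i, x i * z i + ∑ i, x i * (y i - z i) := by
      rw [← Finset.sum_add_distrib]
      exact Finset.sum_congr rfl fun i _ => by ring
    linarith
  refine (LipschitzWith.of_dist_le_mul (K := (n * M).toNNReal) fun y z => ?_).continuous
  rw [Real.coe_toNNReal _ (by positivity), Real.dist_eq, dist_eq_norm, abs_le]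
  constructor
  · have := key z y
    rw [norm_sub_rev] at this
    linarith
  · linarith [key y z]

lemma mem_dual_iff {K : Set (Fin n → ℝ)} (hc : IsCompact K) (hne : K.Nonempty) (s : ℝ)
    (y : Fin n → ℝ) : (∀ x ∈ K, 0 ≤ s + ∑ i, x i * y i) ↔ hsu K (-y) ≤ s := by
  have e : ∀ x : Fin n → ℝ, ∑ i, x i * (-y) i = -∑ i, x i * y i := by
    intro x
    rw [← Finset.sum_neg_distrib]
    exact Finset.sum_congr rfl fun i _ => by simp
  constructor
  · intro h
    refine csSup_le (hne.image _) ?_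
    rintro _ ⟨x, hx, rfl⟩
    have := h x hx
    simp only [e]
    linarith
  · intro h x hx
    have h1 : ∑ i, x i * (-y) i ≤ hsu K (-y) := le_csSup (bdd_hsu hc _) ⟨x, hx, rfl⟩
    rw [e] at h1
    linarith

theorem phi_dual {K : Set (Fin n → ℝ)} (hc : IsCompact K) (hne : K.Nonempty) :
    ∫⁻ q in dualOver K, ENNReal.ofReal (Real.exp (-(((n : ℝ) + 1) * q 0))) =
      ENNReal.ofReal ((((n : ℝ) + 1) ^ (n + 1))⁻¹) *
        ∫⁻ y, ENNReal.ofReal (Real.exp (-(hsu K y))) := by
  have hcont := hsu_cont hc hne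
  set a : ℝ := (n : ℝ) + 1 with ha
  have ha0 : 0 < a := by positivity
  set S : Set (ℝ × (Fin n → ℝ)) := {q | hsu K (-q.2) ≤ q.1} with hS
  have hSm : MeasurableSet S :=
    (isClosed_le (hcont.comp continuous_snd.neg) continuous_fst).measurableSet
  set F : ℝ → (Fin n → ℝ) → ℝ≥0∞ := fun t x => S.indicator
    (fun q => ENNReal.ofReal (Real.exp (-(a * q.1)))) (t, x) with hF
  have hFm : Measurable (Function.uncurry F) := by
    have e : Function.uncurry F =
        S.indicator (fun q => ENNReal.ofReal (Real.exp (-(a * q.1)))) := by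
      ext ⟨t, x⟩; rfl
    rw [e]
    refine Measurable.indicator ?_ hSm
    exact (by fun_prop : Continuous fun q : ℝ × (Fin n → ℝ) =>
      Real.exp (-(a * q.1))).measurable.ennreal_ofReal
  have hcone : dualOver K = {p : Fin (n + 1) → ℝ | (p 0, fun j => p j.succ) ∈ S} := by
    ext p
    exact mem_dual_iff hc hne _ _
  have hcm : MeasurableSet (dualOver K) := by
    rw [hcone]
    exact (by fun_prop : Measurable fun p : Fin (n + 1) → ℝ =>
      ((p 0, fun j => p j.succ) : ℝ × (Fin n → ℝ))) hSm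
  have h1 : ∫⁻ p in dualOver K, ENNReal.ofReal (Real.exp (-(a * p 0))) =
      ∫⁻ p : Fin (n + 1) → ℝ, F (p 0) (fun j => p j.succ) := by
    rw [← lintegral_indicator hcm]
    refine lintegral_congr fun p => ?_
    simp only [hF, indicator, hcone, mem_ofPred_eq]
  rw [h1, split_lintegral F hFm, lintegral_lintegral_swap hFm.aemeasurable]
  have h2 : ∀ y : Fin n → ℝ, ∫⁻ t, F t y =
      ENNReal.ofReal (a⁻¹) * ENNReal.ofReal (Real.exp (-(hsu K (-(a • y))))) := by
    intro y
    have e : ∀ t, F t y = (Ici (hsu K (-y))).indicator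
        (fun t => ENNReal.ofReal (Real.exp (-(a * t)))) t := by
      intro t
      simp only [hF, indicator, hS, mem_ofPred_eq, mem_Ici]
    have e2 : hsu K (-(a • y)) = a * hsu K (-y) := by
      rw [← smul_neg]
      unfold hsu
      have e3 : (fun x : Fin n → ℝ => ∑ i, x i * (a • -y) i) '' K =
          a • ((fun x : Fin n → ℝ => ∑ i, x i * (-y) i) '' K) := by
        rw [← image_smul, image_image]
        refine image_congr fun x _ => ?_
        rw [smul_eq_mul, Finset.mul_sum]
        refine Finset.sum_congr rfl fun i _ => ?_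
        simp only [Pi.smul_apply, smul_eq_mul]
        ring
      rw [e3, Real.sSup_smul_of_nonneg ha0.le, smul_eq_mul]
    rw [lintegral_congr e, lintegral_indicator measurableSet_Ici, exp_tail _ ha0, e2,
      ENNReal.ofReal_mul (by positivity)]
  rw [lintegral_congr h2, lintegral_const_mul _ (by
    exact (Real.continuous_exp.comp (hcont.comp (by fun_prop)).neg).measurable.ennreal_ofReal)]
  have h3 : ∫⁻ y, ENNReal.ofReal (Real.exp (-(hsu K (-(a • y))))) =
      ENNReal.ofReal ((a ^ n)⁻¹) * ∫⁻ y, ENNReal.ofReal (Real.exp (-(hsu K y))) := by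
    have h4 := lintegral_smul' (fun y => ENNReal.ofReal (Real.exp (-(hsu K (-y))))) ha0
    have h5 : ∫⁻ y, ENNReal.ofReal (Real.exp (-(hsu K (-y)))) =
        ∫⁻ y, ENNReal.ofReal (Real.exp (-(hsu K y))) :=
      lintegral_neg_eq_self (μ := (volume : Measure (Fin n → ℝ)))
        (fun y => ENNReal.ofReal (Real.exp (-(hsu K y))))
    rw [← h5, ← h4, ← mul_assoc, ← ENNReal.ofReal_mul (by positivity),
      inv_mul_cancel₀ (by positivity), ENNReal.ofReal_one, one_mul]
  rw [h3, ← mul_assoc, ← ENNReal.ofReal_mul (by positivity)]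
  congr 2
  rw [pow_succ, mul_inv, mul_comm]

end Pool.Agent.Helper80.MAH
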