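import Pool.Agent.Helper80.MAH.Cone

/-!
The Mahler volume of a body from the cone over the body.
-/

set_option autoImplicit false

noncomputable section

open MeasureTheory Set
open scoped Pointwise ENNReal Topology

namespace Pool.Agent.Helper80.MAH

variable {n : ℕ}

theorem mahler_of_cone {K : Set (Fin n → ℝ)} (hc : IsCompact K) (hv : Convex ℝ K)
    (h0 : (0 : Fin n → ℝ) ∈ interior K)
    (h : 1 ≤ (∫⁻ p in coneOver K, ENNReal.ofReal (Real.exp (-(p 0)))) *
      ∫⁻ q in dualOver K, ENNReal.ofReal (Real.exp (-(((n : ℝ) + 1) * q 0)))) :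
    ENNReal.ofReal (((n : ℝ) + 1) ^ (n + 1) / n.factorial) ≤
      volume K * ∫⁻ y, ENNReal.ofReal (Real.exp (-(hsu K y))) := by
  rw [phi_cone hc hv h0, phi_dual hc ⟨0, interior_subset h0⟩] at h
  set V := volume K
  set I := ∫⁻ y, ENNReal.ofReal (Real.exp (-(hsu K y)))
  have hf : (0 : ℝ) < n.factorial := by exact_mod_cast n.factorial_pos
  have e1 : ENNReal.ofReal (n.factorial : ℝ) * V *
      (ENNReal.ofReal ((((n : ℝ) + 1) ^ (n + 1))⁻¹) * I) =
      ENNReal.ofReal ((n.factorial : ℝ) * (((n : ℝ) + 1) ^ (n + 1))⁻¹) * (V * I) := by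
    rw [ENNReal.ofReal_mul hf.le]
    ring
  rw [e1] at h
  calc ENNReal.ofReal (((n : ℝ) + 1) ^ (n + 1) / n.factorial)
      = ENNReal.ofReal (((n : ℝ) + 1) ^ (n + 1) / n.factorial) * 1 := (mul_one _).symm
    _ ≤ ENNReal.ofReal (((n : ℝ) + 1) ^ (n + 1) / n.factorial) *
        (ENNReal.ofReal ((n.factorial : ℝ) * (((n : ℝ) + 1) ^ (n + 1))⁻¹) * (V * I)) := by
        gcongr
    _ = V * I := by
        rw [← mul_assoc, ← ENNReal.ofReal_mul (by positivity)]
        have : ((n : ℝ) + 1) ^ (n + 1) / n.factorial *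
            ((n.factorial : ℝ) * (((n : ℝ) + 1) ^ (n + 1))⁻¹) = 1 := by
          field_simp
        rw [this, ENNReal.ofReal_one, one_mul]

/-- the generators of the cone over the convex hull of the points `y i` -/
def gen {ι : Type} (y : ι → Fin n → ℝ) (i : ι) : Fin (n + 1) → ℝ := Fin.cons 1 (y i)

lemma mem_hull_range {ι : Type} [Fintype ι] (y : ι → Fin n → ℝ) {x : Fin n → ℝ}
    (hx : x ∈ convexHull ℝ (range y)) :
    ∃ w : ι → ℝ, (∀ i, 0 ≤ w i) ∧ ∑ i, w i = 1 ∧ ∑ i, w i • y i = x := by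
  classical
  have h : convexHull ℝ (range y) ⊆
      {x | ∃ w : ι → ℝ, (∀ i, 0 ≤ w i) ∧ ∑ i, w i = 1 ∧ ∑ i, w i • y i = x} := by
    refine convexHull_min ?_ ?_
    · rintro _ ⟨i, rfl⟩
      refine ⟨Pi.single i 1, fun j => ?_, ?_, ?_⟩
      · by_cases hj : j = i
        · subst hj; simp
        · simp [hj]
      · simp
      · rw [Finset.sum_eq_single i]
        · simp
        · intro j _ hj; simp [hj]
        · intro hi; exact absurd (Finset.mem_univ i) hi
    · rintro _ ⟨w, hw, hw1, rfl⟩ _ ⟨u, hu, hu1, rfl⟩ a b ha hb hab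
      refine ⟨fun i => a * w i + b * u i, fun i => ?_, ?_, ?_⟩
      · have := hw i; have := hu i; positivity
      · rw [Finset.sum_add_distrib, ← Finset.mul_sum, ← Finset.mul_sum, hw1, hu1, mul_one, mul_one,
          hab]
      · simp only [add_smul, Finset.sum_add_distrib, mul_smul, Finset.smul_sum]
  exact h hx

theorem cone_eq {ι : Type} [Fintype ι] [Nonempty ι] (y : ι → Fin n → ℝ) :
    {p : Fin (n + 1) → ℝ | ∃ c : ι → ℝ, (∀ i, 0 ≤ c i) ∧ p = ∑ i, c i • gen y i} =
      coneOver (convexHull ℝ (range y)) := by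
  ext p
  simp only [mem_ofPred_eq, coneOver]
  constructor
  · rintro ⟨c, hc, rfl⟩
    have e0 : (∑ i, c i • gen y i) 0 = ∑ i, c i := by
      simp [gen, Finset.sum_apply]
    have e1 : (fun j : Fin n => (∑ i, c i • gen y i) j.succ) = ∑ i, c i • y i := by
      funext j
      simp [gen, Finset.sum_apply]
    rw [e0, e1]
    have hs : 0 ≤ ∑ i, c i := Finset.sum_nonneg fun i _ => hc i
    refine ⟨hs, ?_⟩
    rcases hs.eq_or_lt with h | h
    · have hz : ∀ i, c i = 0 := fun i =>
        (Finset.sum_eq_zero_iff_of_nonneg (fun i _ => hc i)).1 h.symm i (Finset.mem_univ i)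
      obtain ⟨i0⟩ := ‹Nonempty ι›
      refine ⟨y i0, subset_convexHull ℝ _ ⟨i0, rfl⟩, ?_⟩
      simp [hz]
    · refine ⟨∑ i, ((∑ i, c i)⁻¹ * c i) • y i, ?_, ?_⟩
      · refine (convex_convexHull ℝ _).sum_mem (fun i _ => mul_nonneg (inv_nonneg.2 hs) (hc i)) ?_
          (fun i _ => subset_convexHull ℝ _ ⟨i, rfl⟩)
        rw [← Finset.mul_sum, inv_mul_cancel₀ h.ne']
      · simp only [Finset.smul_sum, smul_smul]
        refine Finset.sum_congr rfl fun i _ => ?_
        rw [← mul_assoc, mul_inv_cancel₀ h.ne', one_mul]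
  · rintro ⟨h0, x, hx, hxp⟩
    obtain ⟨w, hw, hw1, rfl⟩ := mem_hull_range y hx
    refine ⟨fun i => p 0 * w i, fun i => mul_nonneg h0 (hw i), ?_⟩
    funext j
    refine Fin.cases ?_ (fun j => ?_) j
    · simp only [gen, Finset.sum_apply, Pi.smul_apply, Fin.cons_zero, smul_eq_mul, mul_one]
      rw [← Finset.mul_sum, hw1, mul_one]
    · have h1 := congrFun hxp j
      simp only [Pi.smul_apply, Finset.sum_apply, smul_eq_mul] at h1
      rw [← h1]
      simp only [gen, Finset.sum_apply, Pi.smul_apply, Fin.cons_succ, smul_eq_mul]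
      rw [Finset.mul_sum]
      exact Finset.sum_congr rfl fun i _ => by ring

theorem apex_interior {K : Set (Fin n → ℝ)} (hc : IsCompact K) (hv : Convex ℝ K)
    (h0 : (0 : Fin n → ℝ) ∈ interior K) {a : ℝ} (ha : 0 < a) :
    (Fin.cons a 0 : Fin (n + 1) → ℝ) ∈ interior (coneOver K) := by
  have hn : K ∈ 𝓝 (0 : Fin n → ℝ) := mem_interior_iff_mem_nhds.1 h0
  have hgc : Continuous (gauge K) := continuous_gauge hv hn
  have hsub : {p : Fin (n + 1) → ℝ | gauge K (fun j => p j.succ) < p 0} ⊆ coneOver K := by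
    intro p hp
    exact (mem_smul_iff hc hv h0 _ _).2 (le_of_lt hp)
  refine interior_maximal hsub (isOpen_lt (hgc.comp (by fun_prop)) (by fun_prop)) ?_
  simp only [mem_ofPred_eq, Fin.cons_zero, Fin.cons_succ]
  have : (fun _ : Fin n => (0 : Fin n → ℝ) = 0) = fun _ => True := by funext; simp
  change gauge K (0 : Fin n → ℝ) < a
  rwa [gauge_zero]

theorem dual_eq {ι : Type} (y : ι → Fin n → ℝ) :
    {q : Fin (n + 1) → ℝ | ∀ i, 0 ≤ ∑ j, q j * gen y i j} =
      dualOver (convexHull ℝ (range y)) := by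
  have e : ∀ (q : Fin (n + 1) → ℝ) (i : ι),
      ∑ j, q j * gen y i j = q 0 + ∑ j, y i j * q j.succ := by
    intro q i
    rw [Fin.sum_univ_succ]
    simp [gen, mul_comm]
  ext q
  simp only [mem_ofPred_eq, dualOver, e]
  constructor
  · intro h
    have hcv : Convex ℝ {x : Fin n → ℝ | 0 ≤ q 0 + ∑ j, x j * q j.succ} := by
      intro x hx z hz a b ha hb hab
      simp only [mem_ofPred_eq] at hx hz ⊢
      have e1 : q 0 + ∑ j, (a • x + b • z) j * q j.succ =
          a * (q 0 + ∑ j, x j * q j.succ) + b * (q 0 + ∑ j, z j * q j.succ) := by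
        have e2 : ∑ j, (a • x + b • z) j * q j.succ =
            a * (∑ j, x j * q j.succ) + b * (∑ j, z j * q j.succ) := by
          rw [Finset.mul_sum, Finset.mul_sum, ← Finset.sum_add_distrib]
          refine Finset.sum_congr rfl fun j _ => ?_
          simp only [Pi.add_apply, Pi.smul_apply, smul_eq_mul]
          ring
        rw [e2]
        linear_combination (-(q 0)) * hab
      rw [e1]
      positivity
    have h2 : convexHull ℝ (range y) ⊆ {x : Fin n → ℝ | 0 ≤ q 0 + ∑ j, x j * q j.succ} := by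
      refine convexHull_min ?_ hcv
      rintro _ ⟨i, rfl⟩
      exact h i
    intro x hx
    exact h2 hx
  · intro h i
    exact h _ (subset_convexHull ℝ _ ⟨i, rfl⟩)

end Pool.Agent.Helper80.MAH
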