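import Pool.Agent.Helper80.MAH.Fin1
import Pool.Agent.Helper73.Twin3

/-!
Mahler's inequality for all convex bodies from the inequality for the cones over polytopes.
-/

set_option autoImplicit false

noncomputable section

open MeasureTheory Set
open scoped Pointwise ENNReal Topology

namespace Pool.Agent.Helper80.MAH

/-- the inequality for the cones over polytopes -/
def S_FIN : Prop :=
  ∀ (n : ℕ) (ι : Type) [Fintype ι] [Nonempty ι] (y : ι → Fin n → ℝ),
    (0 : Fin n → ℝ) ∈ interior (convexHull ℝ (range y)) →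
    1 ≤ (∫⁻ p in coneOver (convexHull ℝ (range y)), ENNReal.ofReal (Real.exp (-(p 0)))) *
      ∫⁻ q in dualOver (convexHull ℝ (range y)),
        ENNReal.ofReal (Real.exp (-(((n : ℝ) + 1) * q 0)))

variable {n : ℕ}

/-- convex bodies of `ℝⁿ` (in any position) -/
def Body (K : Set (Fin n → ℝ)) : Prop :=
  Convex ℝ K ∧ IsCompact K ∧ (interior K).Nonempty

/-- the Mahler volume `|L| ∫ exp (-h_L(y)) dy` (`p = ∞`), with the support function `h_L` -/
def Minf (L : Set (Fin n → ℝ)) : ℝ≥0∞ := volume L *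
  ∫⁻ y : Fin n → ℝ, ENNReal.ofReal
    (Real.exp (-(sSup ((fun x : Fin n → ℝ => ∑ i, x i * y i) '' L))))

/-- the polar body -/
def Polar (K : Set (Fin n → ℝ)) : Set (Fin n → ℝ) := {y | ∀ x ∈ K, ∑ i, x i * y i ≤ 1}

/-- the standard simplex -/
def Simplex (n : ℕ) : Set (Fin n → ℝ) := {z | (∀ i, 0 ≤ z i) ∧ ∑ i, z i ≤ 1}

/-- the translate `K - z` -/
def shift (K : Set (Fin n → ℝ)) (z : Fin n → ℝ) : Set (Fin n → ℝ) := (fun x => x - z) '' K

theorem lower_interior (h : S_FIN) {K : Set (Fin n → ℝ)} (hc : IsCompact K) (hv : Convex ℝ K)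
    (h0 : (0 : Fin n → ℝ) ∈ interior K) :
    ENNReal.ofReal (((n : ℝ) + 1) ^ (n + 1) / n.factorial) ≤ Minf K := by
  refine of_polytopes (fun s hs => ?_) hc hv h0
  have hne : (s : Set (Fin n → ℝ)).Nonempty := by
    rw [← convexHull_nonempty_iff (𝕜 := ℝ)]
    exact ⟨0, interior_subset hs⟩
  have : Nonempty s := hne.to_subtype
  have hr : range (fun x : s => (x : Fin n → ℝ)) = (s : Set (Fin n → ℝ)) := by
    ext x; simp
  have h1 := h n s (fun x => (x : Fin n → ℝ)) (by rw [hr]; exact hs)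
  rw [hr] at h1
  exact mahler_of_cone (s.finite_toSet.isCompact_convexHull ℝ) (convex_convexHull ℝ _) hs h1

theorem lower (h : S_FIN) {K : Set (Fin n → ℝ)} (hK : Body K) :
    ENNReal.ofReal (((n : ℝ) + 1) ^ (n + 1) / n.factorial) ≤ Minf K := by
  obtain ⟨hv, hc, hi⟩ := hK
  by_cases h0 : (0 : Fin n → ℝ) ∈ interior K
  · exact lower_interior h hc hv h0
  · have h1 : Minf K = ⊤ := by
      unfold Minf
      have h2 := Helper82.Mah.exp_hs_top hc hv hi h0
      have h3 : ∫⁻ y : Fin n → ℝ, ENNReal.ofReal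
          (Real.exp (-(sSup ((fun x : Fin n → ℝ => ∑ i, x i * y i) '' K)))) = ⊤ := h2
      rw [h3, ENNReal.mul_top]
      exact (lt_of_lt_of_le (isOpen_interior.measure_pos volume hi)
        (measure_mono interior_subset)).ne'
    rw [h1]
    exact le_top

theorem upper (n : ℕ) : Minf (shift (Simplex n) (Helper73.Twin.cen n)) ≤
    ENNReal.ofReal (((n : ℝ) + 1) ^ (n + 1) / n.factorial) :=
  Helper73.Twin.smpc_mahler n

theorem body_shift {K : Set (Fin n → ℝ)} (hK : Body K) (z : Fin n → ℝ) : Body (shift K z) := by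
  obtain ⟨hv, hc, hi⟩ := hK
  refine ⟨?_, hc.image (by fun_prop), ?_⟩
  · have e : shift K z = (fun x => -z + x) '' K := by
      unfold shift
      congr 1
      funext x
      abel
    rw [e]
    exact hv.translate (-z)
  · have e : shift K z = (Homeomorph.subRight z) '' K := rfl
    rw [e, ← Homeomorph.image_interior]
    exact hi.image _

theorem body_simplex (n : ℕ) : Body (Simplex n) :=
  ⟨Helper73.Twin.smp_convex n, Helper73.Twin.smp_compact n, ⟨_, Helper73.Twin.cen_interior n⟩⟩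

theorem inf_simplex (h : S_FIN) (n : ℕ) : ⨅ x ∈ Simplex n, Minf (shift (Simplex n) x) =
    ENNReal.ofReal (((n : ℝ) + 1) ^ (n + 1) / n.factorial) := by
  refine le_antisymm ?_ ?_
  · exact (iInf₂_le _ (interior_subset (Helper73.Twin.cen_interior n))).trans (upper n)
  · exact le_iInf₂ fun x _ => lower h (body_shift (body_simplex n) x)

/-- `M_∞(K) = n! |K| |K°|` -/
theorem minf_polar {K : Set (Fin n → ℝ)} (hK : Body K) (h0 : (0 : Fin n → ℝ) ∈ interior K) :
    Minf K = ENNReal.ofReal (n.factorial : ℝ) * (volume K * volume (Polar K)) := by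
  have h : W679AM.OBody K := ⟨hK.2.1, hK.1, h0⟩
  have h1 := Helper82.Mah.exp_hs h
  have h2 := Helper73.Twin.exp_hs_le h
  have h3 : Minf K = volume K * (ENNReal.ofReal (n.factorial : ℝ) * volume (Polar K)) := by
    unfold Minf
    congr 1
    exact le_antisymm h2 h1
  rw [h3]
  ring

theorem product (h : S_FIN) {K : Set (Fin n → ℝ)} (hK : Body K)
    (h0 : (0 : Fin n → ℝ) ∈ interior K) :
    ENNReal.ofReal (((n : ℝ) + 1) ^ (n + 1) / (n.factorial : ℝ) ^ 2) ≤
      volume K * volume (Polar K) := by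
  have h1 := lower h hK
  rw [minf_polar hK h0] at h1
  have hf : (0 : ℝ) < n.factorial := by exact_mod_cast n.factorial_pos
  have e : ENNReal.ofReal (((n : ℝ) + 1) ^ (n + 1) / n.factorial) =
      ENNReal.ofReal (n.factorial : ℝ) *
        ENNReal.ofReal (((n : ℝ) + 1) ^ (n + 1) / (n.factorial : ℝ) ^ 2) := by
    rw [← ENNReal.ofReal_mul hf.le]
    congr 1
    field_simp
  rw [e] at h1
  exact (ENNReal.mul_le_mul_iff_right (ENNReal.ofReal_pos.2 hf).ne' ENNReal.ofReal_ne_top).1 h1

/-- **Mahler's conjecture for general convex bodies** (`p = ∞`), from the inequality for cones. -/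
theorem final (h : S_FIN) (K : Set (Fin n → ℝ)) (hK : Body K) :
    ⨅ x ∈ Simplex n, Minf (shift (Simplex n) x) ≤ Minf K ∧
    ⨅ x ∈ Simplex n, Minf (shift (Simplex n) x) =
      ENNReal.ofReal (((n : ℝ) + 1) ^ (n + 1) / n.factorial) ∧
    ((0 : Fin n → ℝ) ∈ interior K →
      ENNReal.ofReal (((n : ℝ) + 1) ^ (n + 1) / (n.factorial : ℝ) ^ 2) ≤
        volume K * volume (Polar K)) := by
  refine ⟨?_, inf_simplex h n, fun h0 => product h hK h0⟩
  rw [inf_simplex h]
  exact lower h hK

end Pool.Agent.Helper80.MAH
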