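import Pool.Agent.Helper80.MAH.Fin2
import Pool.Agent.Helper68.MAH.Dual

/-!
The inequality for cones over polytopes from the inequality for all cones.
-/

set_option autoImplicit false

noncomputable section

open MeasureTheory Set
open scoped Pointwise ENNReal Topology RealInnerProductSpace

namespace Pool.Agent.Helper80.MAH

open Pool.Agent.Helper68.MAH (IsCone PosOn dualC phi S_CM)

variable {n : ℕ}

/-- a set of `ℝⁿ` as a set of the Euclidean space -/
def toE {d : ℕ} (S : Set (Fin d → ℝ)) : Set (EuclideanSpace ℝ (Fin d)) := {x | x.ofLp ∈ S}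

lemma lint_E {d : ℕ} (S : Set (Fin d → ℝ)) (f : (Fin d → ℝ) → ℝ≥0∞) :
    ∫⁻ x in toE S, f x.ofLp = ∫⁻ p in S, f p :=
  (EuclideanSpace.volume_preserving_symm_measurableEquiv_toLp (Fin d)).setLIntegral_comp_preimage_emb
    (MeasurableEquiv.measurableEmbedding _) f S

/-- the vector `(a, 0)` -/
def apx (n : ℕ) (a : ℝ) : EuclideanSpace ℝ (Fin (n + 1)) := WithLp.toLp 2 (Fin.cons a 0)

lemma inner_sum {d : ℕ} (x y : EuclideanSpace ℝ (Fin d)) : ⟪x, y⟫ = ∑ j, x.ofLp j * y.ofLp j := by
  rw [PiLp.inner_apply]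
  refine Finset.sum_congr rfl fun j _ => ?_
  simp [mul_comm]

lemma inner_apx (a : ℝ) (y : EuclideanSpace ℝ (Fin (n + 1))) : ⟪apx n a, y⟫ = a * y.ofLp 0 := by
  rw [inner_sum, Fin.sum_univ_succ]
  simp [apx]

lemma isCone_toE {K : Set (Fin n → ℝ)} (hc : IsCompact K) (hv : Convex ℝ K)
    (h0 : (0 : Fin n → ℝ) ∈ interior K) : IsCone (toE (coneOver K)) := by
  have hn : K ∈ 𝓝 (0 : Fin n → ℝ) := mem_interior_iff_mem_nhds.1 h0
  have hgc : Continuous (gauge K) := continuous_gauge hv hn
  have hab : Absorbent ℝ K := absorbent_nhds_zero hn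
  have key : ∀ x : EuclideanSpace ℝ (Fin (n + 1)), x ∈ toE (coneOver K) ↔
      gauge K (fun j => x.ofLp j.succ) ≤ x.ofLp 0 := fun x => mem_smul_iff hc hv h0 _ _
  refine ⟨?_, ?_, ?_, ?_, ?_⟩
  · have : toE (coneOver K) = {x | gauge K (fun j => x.ofLp j.succ) ≤ x.ofLp 0} := by
      ext x; exact key x
    rw [this]
    exact isClosed_le (hgc.comp (by fun_prop)) (by fun_prop)
  · intro x hx y hy a b ha hb _
    rw [key] at hx hy ⊢
    have e : (fun j : Fin n => (a • x + b • y).ofLp j.succ) =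
        a • (fun j => x.ofLp j.succ) + b • (fun j => y.ofLp j.succ) := by
      funext j; simp
    rw [e]
    refine (gauge_add_le hv hab _ _).trans ?_
    rw [gauge_smul_of_nonneg ha, gauge_smul_of_nonneg hb]
    simp only [smul_eq_mul, WithLp.ofLp_add, WithLp.ofLp_smul, Pi.add_apply, Pi.smul_apply]
    gcongr
  · rw [key]
    have : (fun j : Fin n => (0 : EuclideanSpace ℝ (Fin (n + 1))).ofLp j.succ) = 0 := by
      funext j; simp
    rw [this, gauge_zero]
    simp
  · intro v hvv c hcc
    rw [key] at hvv ⊢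
    have e : (fun j : Fin n => (c • v).ofLp j.succ) = c • (fun j => v.ofLp j.succ) := by
      funext j; simp
    rw [e, gauge_smul_of_nonneg hcc]
    simp only [smul_eq_mul, WithLp.ofLp_smul, Pi.smul_apply]
    gcongr
  · refine ⟨apx n 1, ?_⟩
    exact preimage_interior_subset_interior_preimage (PiLp.continuous_ofLp 2 _)
      (apex_interior hc hv h0 one_pos)

lemma apx_int {K : Set (Fin n → ℝ)} (hc : IsCompact K) (hv : Convex ℝ K)
    (h0 : (0 : Fin n → ℝ) ∈ interior K) {a : ℝ} (ha : 0 < a) :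
    apx n a ∈ interior (toE (coneOver K)) :=
  preimage_interior_subset_interior_preimage (PiLp.continuous_ofLp 2 _)
      (apex_interior hc hv h0 ha)

lemma posOn_apx {K : Set (Fin n → ℝ)} : PosOn (toE (coneOver K)) (apx n 1) := by
  intro v hvK hv0
  rw [inner_apx, one_mul]
  obtain ⟨h1, h2⟩ := hvK
  refine lt_of_le_of_ne h1 fun h => hv0 ?_
  rw [← h] at h2
  obtain ⟨x, _, hx⟩ := h2
  ext j
  refine Fin.cases ?_ (fun j => ?_) j
  · simpa using h.symm
  · have := congrFun hx j
    simpa using this.symm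

lemma dual_toE {K : Set (Fin n → ℝ)} : dualC (toE (coneOver K)) = toE (dualOver K) := by
  ext y
  simp only [dualC, toE, dualOver, mem_ofPred_eq]
  constructor
  · intro h x hx
    have h1 := h (WithLp.toLp 2 (Fin.cons 1 x)) ⟨by simp, ⟨x, hx, by funext j; simp⟩⟩
    rw [inner_sum, Fin.sum_univ_succ] at h1
    simpa [mul_comm] using h1
  · rintro h v ⟨h1, x, hx, hxv⟩
    have h2 := h x hx
    rw [inner_sum, Fin.sum_univ_succ]
    have e : ∑ j : Fin n, y.ofLp j.succ * v.ofLp j.succ =
        v.ofLp 0 * ∑ j, x j * y.ofLp j.succ := by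
      rw [Finset.mul_sum]
      refine Finset.sum_congr rfl fun j _ => ?_
      have := congrFun hxv j
      simp only [Pi.smul_apply, smul_eq_mul] at this
      rw [← this]
      ring
    rw [e]
    have : y.ofLp 0 * v.ofLp 0 + v.ofLp 0 * ∑ j, x j * y.ofLp j.succ =
        v.ofLp 0 * (y.ofLp 0 + ∑ j, x j * y.ofLp j.succ) := by ring
    rw [this]
    exact mul_nonneg h1 h2

lemma phi_toE {S : Set (Fin (n + 1) → ℝ)} (a : ℝ) :
    phi (toE S) (apx n a) = (∫⁻ p in S, ENNReal.ofReal (Real.exp (-(a * p 0)))).toReal := by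
  unfold phi
  rw [integral_eq_lintegral_of_nonneg_ae (ae_of_all _ fun x => (Real.exp_pos _).le)
    (by apply Continuous.aestronglyMeasurable; fun_prop)]
  congr 1
  simp_rw [inner_apx]
  exact lint_E S (fun p => ENNReal.ofReal (Real.exp (-(a * p 0))))

/-- the inequality for the cones over polytopes, from the inequality for all cones -/
theorem fin_of_cm (h : S_CM) : S_FIN := by
  intro n ι _ _ y h0
  set K := convexHull ℝ (range y) with hK
  have hc : IsCompact K := (Set.finite_range y).isCompact_convexHull ℝ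
  have hv : Convex ℝ K := convex_convexHull ℝ _
  have ha : (0 : ℝ) < (n : ℝ) + 1 := by positivity
  have h1 := h (n + 1) (toE (coneOver K)) (apx n 1) (apx n ((n : ℝ) + 1)) (isCone_toE hc hv h0)
    posOn_apx (apx_int hc hv h0 ha)
  rw [dual_toE, phi_toE, phi_toE, inner_apx] at h1
  simp only [one_mul] at h1
  have e0 : (apx n ((n : ℝ) + 1)).ofLp 0 = (n : ℝ) + 1 := by simp [apx]
  rw [e0] at h1
  set A := ∫⁻ p in coneOver K, ENNReal.ofReal (Real.exp (-(p 0))) with hA
  set B := ∫⁻ q in dualOver K, ENNReal.ofReal (Real.exp (-(((n : ℝ) + 1) * q 0))) with hB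
  have hf : (0 : ℝ) < n.factorial := by exact_mod_cast n.factorial_pos
  have hA1 : A ≠ 0 := by
    rw [hA, phi_cone hc hv h0]
    refine mul_ne_zero (ENNReal.ofReal_pos.2 hf).ne' ?_
    exact (lt_of_lt_of_le (isOpen_interior.measure_pos volume ⟨0, h0⟩)
      (measure_mono interior_subset)).ne'
  have hA2 : A ≠ ⊤ := by
    rw [hA, phi_cone hc hv h0]
    exact ENNReal.mul_ne_top ENNReal.ofReal_ne_top hc.measure_lt_top.ne
  have hB1 : B ≠ 0 := by
    rw [hB, phi_dual hc ⟨0, interior_subset h0⟩]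
    refine mul_ne_zero (ENNReal.ofReal_pos.2 (by positivity)).ne' ?_
    intro hz
    have hm : Measurable fun y : Fin n → ℝ => ENNReal.ofReal (Real.exp (-(hsu K y))) := by
      have := (hsu_cont hc ⟨0, interior_subset h0⟩).measurable
      fun_prop
    rw [lintegral_eq_zero_iff hm] at hz
    have : ∀ᵐ _ : Fin n → ℝ, False := by
      filter_upwards [hz] with y hy
      exact (ENNReal.ofReal_pos.2 (Real.exp_pos _)).ne' hy
    have hv0 : (volume : Measure (Fin n → ℝ)) = 0 := by simpa using this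
    have hp := isOpen_univ.measure_pos (volume : Measure (Fin n → ℝ)) ⟨0, mem_univ _⟩
    rw [hv0] at hp
    simp at hp
  by_cases hB2 : B = ⊤
  · rw [hB2, ENNReal.mul_top hA1]
    exact le_top
  · have hA3 : 0 < A.toReal := ENNReal.toReal_pos hA1 hA2
    have hB3 : 0 < B.toReal := ENNReal.toReal_pos hB1 hB2
    rw [← Real.log_mul hA3.ne' hB3.ne'] at h1
    have h2 : 0 ≤ Real.log (A.toReal * B.toReal) := by
      refine le_trans ?_ h1
      push_cast
      simp
    have h3 : 1 ≤ A.toReal * B.toReal := by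
      by_contra hlt
      push Not at hlt
      exact absurd h2 (not_le.2 (Real.log_neg (mul_pos hA3 hB3) hlt))
    rw [← ENNReal.toReal_mul] at h3
    rw [← ENNReal.ofReal_toReal (ENNReal.mul_ne_top hA2 hB2)]
    exact ENNReal.one_le_ofReal.2 h3

end Pool.Agent.Helper80.MAH
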