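import Mathlib

/-!
Riemann sums over the integer points of a cone.
-/

set_option autoImplicit false

noncomputable section

open MeasureTheory Set
open scoped Pointwise ENNReal Topology

namespace Pool.Agent.Helper80.MAH

variable {d : ℕ}

/-- an integer point as a real point -/
def re (x : Fin d → ℤ) : Fin d → ℝ := fun i => (x i : ℝ)

/-- unit cube with corner `x` -/
def cube (x : Fin d → ℤ) : Set (Fin d → ℝ) := Set.pi univ fun i => Ico (x i : ℝ) (x i + 1)

lemma mem_cube {x : Fin d → ℤ} {y : Fin d → ℝ} :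
    y ∈ cube x ↔ ∀ i, (x i : ℝ) ≤ y i ∧ y i < x i + 1 := by
  simp [cube, Set.mem_pi]

lemma cube_meas (x : Fin d → ℤ) : MeasurableSet (cube x) :=
  MeasurableSet.univ_pi fun _ => measurableSet_Ico

lemma cube_vol (x : Fin d → ℤ) : volume (cube x) = 1 := by
  unfold cube
  rw [Real.volume_pi_Ico]
  simp

lemma mem_cube_floor (y : Fin d → ℝ) : y ∈ cube (fun i => ⌊y i⌋) := by
  rw [mem_cube]
  exact fun i => ⟨Int.floor_le _, Int.lt_floor_add_one _⟩

lemma cube_eq {x : Fin d → ℤ} {y : Fin d → ℝ} (h : y ∈ cube x) : x = fun i => ⌊y i⌋ := by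
  funext i
  rw [mem_cube] at h
  exact (Int.floor_eq_iff.2 (h i)).symm

lemma cube_disj : Pairwise (Function.onFun Disjoint (cube : (Fin d → ℤ) → Set (Fin d → ℝ))) := by
  intro x x' hne
  rw [Function.onFun, Set.disjoint_left]
  intro y h h'
  exact hne ((cube_eq h).trans (cube_eq h').symm)

lemma cube_union : ⋃ x : Fin d → ℤ, cube x = univ :=
  eq_univ_of_forall fun y => mem_iUnion.2 ⟨_, mem_cube_floor y⟩

lemma lintegral_cubes (f : (Fin d → ℝ) → ℝ≥0∞) :
    ∫⁻ y, f y = ∑' x : Fin d → ℤ, ∫⁻ y in cube x, f y := by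
  rw [← lintegral_iUnion cube_meas cube_disj, cube_union, Measure.restrict_univ]

/-- pairing -/
def pair (e x : Fin d → ℝ) : ℝ := ∑ i, e i * x i

lemma pair_add (e x y : Fin d → ℝ) : pair e (x + y) = pair e x + pair e y := by
  unfold pair
  rw [← Finset.sum_add_distrib]
  exact Finset.sum_congr rfl fun i _ => by rw [Pi.add_apply]; ring

lemma pair_smul (e x : Fin d → ℝ) (c : ℝ) : pair e (c • x) = c * pair e x := by
  unfold pair
  rw [Finset.mul_sum]
  exact Finset.sum_congr rfl fun i _ => by rw [Pi.smul_apply, smul_eq_mul]; ring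

lemma pair_sub (e x y : Fin d → ℝ) : pair e (x - y) = pair e x - pair e y := by
  unfold pair
  rw [← Finset.sum_sub_distrib]
  exact Finset.sum_congr rfl fun i _ => by rw [Pi.sub_apply]; ring

lemma pair_cont (e : Fin d → ℝ) : Continuous (pair e) := by
  unfold pair
  fun_prop

/-- convex cones -/
structure IsCone (C : Set (Fin d → ℝ)) : Prop where
  meas : MeasurableSet C
  add : ∀ x ∈ C, ∀ y ∈ C, x + y ∈ C
  smul : ∀ c : ℝ, 0 < c → ∀ x ∈ C, c • x ∈ C
  zero : (0 : Fin d → ℝ) ∈ C

variable {C : Set (Fin d → ℝ)}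

lemma IsCone.smul_iff (hC : IsCone C) {c : ℝ} (hc : 0 < c) (x : Fin d → ℝ) :
    c • x ∈ C ↔ x ∈ C := by
  refine ⟨fun h => ?_, hC.smul c hc x⟩
  have := hC.smul c⁻¹ (inv_pos.2 hc) _ h
  rwa [smul_smul, inv_mul_cancel₀ hc.ne', one_smul] at this

/-- a deep point of the cone -/
lemma exists_deep (hC : IsCone C) (hi : (interior C).Nonempty) :
    ∃ q : Fin d → ℝ, ∀ w : Fin d → ℝ, (∀ i, 0 ≤ w i ∧ w i ≤ 1) → q + w ∈ C := by
  obtain ⟨p, hp⟩ := hi
  rw [mem_interior_iff_mem_nhds, Metric.mem_nhds_iff] at hp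
  obtain ⟨r, hr, hpr⟩ := hp
  refine ⟨(2 / r) • p, fun w hw => ?_⟩
  have h1 : p + (r / 2) • w ∈ C := by
    refine hpr ?_
    rw [Metric.mem_ball, dist_eq_norm, add_sub_cancel_left, norm_smul, Real.norm_eq_abs,
      abs_of_pos (by positivity)]
    have h2 : ‖w‖ ≤ 1 := by
      rw [pi_norm_le_iff_of_nonneg zero_le_one]
      intro i
      rw [Real.norm_eq_abs, abs_le]
      constructor <;> linarith [(hw i).1, (hw i).2]
    nlinarith
  have h3 := hC.smul (2 / r) (by positivity) _ h1
  rw [smul_add, smul_smul] at h3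
  have h4 : 2 / r * (r / 2) = 1 := by field_simp
  rwa [h4, one_smul] at h3

lemma lintegral_scale (f : (Fin d → ℝ) → ℝ≥0∞) {r : ℝ} (hr : 0 < r) :
    ∫⁻ y, f (r⁻¹ • y) = ENNReal.ofReal (r ^ d) * ∫⁻ y, f y := by
  have h1 := Measure.map_addHaar_smul (volume : Measure (Fin d → ℝ)) (inv_ne_zero hr.ne')
  have h2 : ∫⁻ y, f (r⁻¹ • y) =
      ∫⁻ y, f y ∂(Measure.map (r⁻¹ • ·) (volume : Measure (Fin d → ℝ))) := by
    have h3 := lintegral_map_equiv (μ := (volume : Measure (Fin d → ℝ))) f
      (Homeomorph.smulOfNeZero r⁻¹ (inv_ne_zero hr.ne')).toMeasurableEquiv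
    exact h3.symm
  rw [h2, h1, lintegral_smul_measure, smul_eq_mul, Module.finrank_fin_fun]
  congr 2
  rw [inv_pow, inv_inv, abs_of_pos (by positivity)]

/-- **L1** -/
theorem riemann_upper (hC : IsCone C) (hi : (interior C).Nonempty) (e : Fin d → ℝ) :
    ∃ κ : ℝ, 0 ≤ κ ∧ ∀ m : ℝ, 0 < m →
      ∑' x : Fin d → ℤ, C.indicator (fun y => ENNReal.ofReal (Real.exp (-(pair e y / m)))) (re x) ≤
        ENNReal.ofReal (Real.exp (κ / m) * m ^ d) *
          ∫⁻ y in C, ENNReal.ofReal (Real.exp (-(pair e y))) := by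
  obtain ⟨q, hq⟩ := exists_deep hC hi
  refine ⟨∑ i, |e i| * (|q i| + 1), Finset.sum_nonneg fun i _ => by positivity, fun m hm => ?_⟩
  set κ := ∑ i, |e i| * (|q i| + 1) with hκ
  set g : (Fin d → ℝ) → ℝ≥0∞ :=
    fun y => C.indicator (fun y => ENNReal.ofReal (Real.exp (-(pair e y / m)))) (y + q) with hg
  have h1 : ∀ x : Fin d → ℤ,
      C.indicator (fun y => ENNReal.ofReal (Real.exp (-(pair e y / m)))) (re x) ≤
        ENNReal.ofReal (Real.exp (κ / m)) * ∫⁻ y in cube x, g y := by
    intro x
    by_cases hx : re x ∈ C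
    · rw [indicator_of_mem hx]
      have h2 : ∀ y ∈ cube x, ENNReal.ofReal (Real.exp (-(κ / m)) *
          Real.exp (-(pair e (re x) / m))) ≤ g y := by
        intro y hy
        rw [mem_cube] at hy
        have h3 : y + q = re x + (q + (y - re x)) := by abel
        have h4 : y + q ∈ C := by
          rw [h3]
          refine hC.add _ hx _ (hq _ fun i => ?_)
          have := hy i
          simp only [Pi.sub_apply, re]
          constructor <;> linarith
        have h5 : pair e (y + q) ≤ pair e (re x) + κ := by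
          rw [h3, pair_add]
          have h6 : pair e (q + (y - re x)) ≤ κ := by
            unfold pair
            rw [hκ]
            refine Finset.sum_le_sum fun i _ => ?_
            refine (le_abs_self _).trans ?_
            rw [abs_mul]
            refine mul_le_mul_of_nonneg_left ?_ (abs_nonneg _)
            refine (abs_add_le _ _).trans ?_
            have := hy i
            have : |(y - re x) i| ≤ 1 := by
              rw [abs_le]
              simp only [Pi.sub_apply, re]
              constructor <;> linarith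
            linarith
          linarith
        simp only [hg, indicator_of_mem h4]
        refine ENNReal.ofReal_le_ofReal ?_
        rw [← Real.exp_add]
        refine Real.exp_le_exp.2 ?_
        have h7 : pair e (y + q) / m ≤ (pair e (re x) + κ) / m := by gcongr
        rw [add_div] at h7
        linarith
      have h8 : ENNReal.ofReal (Real.exp (-(κ / m)) * Real.exp (-(pair e (re x) / m))) ≤
          ∫⁻ y in cube x, g y := by
        calc ENNReal.ofReal (Real.exp (-(κ / m)) * Real.exp (-(pair e (re x) / m)))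
            = ∫⁻ _ in cube x, ENNReal.ofReal (Real.exp (-(κ / m)) *
                Real.exp (-(pair e (re x) / m))) := by
              rw [setLIntegral_const, cube_vol, mul_one]
          _ ≤ _ := setLIntegral_mono' (cube_meas x) h2
      calc ENNReal.ofReal (Real.exp (-(pair e (re x) / m)))
          = ENNReal.ofReal (Real.exp (κ / m)) *
            ENNReal.ofReal (Real.exp (-(κ / m)) * Real.exp (-(pair e (re x) / m))) := by
            rw [← ENNReal.ofReal_mul (Real.exp_pos _).le, ← mul_assoc, ← Real.exp_add,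
              add_neg_cancel, Real.exp_zero, one_mul]
        _ ≤ _ := by gcongr
    · rw [indicator_of_notMem hx]
      exact zero_le
  have h9 : ∫⁻ y, g y = ENNReal.ofReal (m ^ d) *
      ∫⁻ y in C, ENNReal.ofReal (Real.exp (-(pair e y))) := by
    have h10 : ∫⁻ y, g y =
        ∫⁻ y, C.indicator (fun y => ENNReal.ofReal (Real.exp (-(pair e y / m)))) y :=
      lintegral_add_right_eq_self (μ := (volume : Measure (Fin d → ℝ)))
        (fun y => C.indicator (fun y => ENNReal.ofReal (Real.exp (-(pair e y / m)))) y) q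
    rw [h10, ← lintegral_indicator hC.meas, ← lintegral_scale _ hm]
    refine lintegral_congr fun y => ?_
    have h11 : m⁻¹ • y ∈ C ↔ y ∈ C := hC.smul_iff (inv_pos.2 hm) y
    by_cases hy : y ∈ C
    · rw [indicator_of_mem hy, indicator_of_mem (h11.2 hy), pair_smul]
      congr 3
      ring
    · rw [indicator_of_notMem hy, indicator_of_notMem (fun h => hy (h11.1 h))]
  calc ∑' x : Fin d → ℤ,
      C.indicator (fun y => ENNReal.ofReal (Real.exp (-(pair e y / m)))) (re x)
      ≤ ∑' x : Fin d → ℤ, ENNReal.ofReal (Real.exp (κ / m)) * ∫⁻ y in cube x, g y :=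
        ENNReal.tsum_le_tsum h1
    _ = ENNReal.ofReal (Real.exp (κ / m)) * ∫⁻ y, g y := by
        rw [ENNReal.tsum_mul_left, ← lintegral_cubes]
    _ = _ := by
        rw [h9, ← mul_assoc, ← ENNReal.ofReal_mul (Real.exp_pos _).le]

/-- **L2** -/
theorem riemann_lower (hC : IsCone C) {z : Fin d → ℝ} (hz : z ∈ interior C) :
    ∃ κ : ℝ, 0 ≤ κ ∧ ∀ m : ℝ, κ < m →
      ENNReal.ofReal ((m - κ) ^ d) * volume {y | y ∈ C ∧ z - y ∈ C} ≤
        ∑' x : Fin d → ℤ, {y | y ∈ C ∧ m • z - y ∈ C}.indicator (fun _ => (1 : ℝ≥0∞)) (re x) := by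
  obtain ⟨q, hq⟩ := exists_deep hC ⟨z, hz⟩
  -- κ z - 2 q - 1 ∈ C
  set one : Fin d → ℝ := fun _ => 1 with hone
  obtain ⟨κ, hκ, hκC⟩ : ∃ κ : ℝ, 0 < κ ∧ κ • z - ((2 : ℝ) • q + one) ∈ C := by
    rw [mem_interior_iff_mem_nhds, Metric.mem_nhds_iff] at hz
    obtain ⟨r, hr, hzr⟩ := hz
    set u := (2 : ℝ) • q + one with hu
    refine ⟨(‖u‖ + 1) / r, by positivity, ?_⟩
    have h1 : z - (r / (‖u‖ + 1)) • u ∈ C := by
      refine hzr ?_
      rw [Metric.mem_ball, dist_eq_norm, sub_sub_cancel_left, norm_neg, norm_smul,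
        Real.norm_eq_abs, abs_of_pos (by positivity), div_mul_eq_mul_div, div_lt_iff₀ (by positivity)]
      nlinarith [norm_nonneg u]
    have h2 := hC.smul ((‖u‖ + 1) / r) (by positivity) _ h1
    rw [smul_sub, smul_smul] at h2
    have h3 : (‖u‖ + 1) / r * (r / (‖u‖ + 1)) = 1 := by
      have : ‖u‖ + 1 ≠ 0 := by positivity
      field_simp
    rwa [h3, one_smul] at h2
  refine ⟨κ, hκ.le, fun m hm => ?_⟩
  set A : Set (Fin d → ℝ) := {y | y ∈ C ∧ m • z - y ∈ C} with hA
  set R : Set (Fin d → ℝ) := {y | y ∈ C ∧ (m - κ) • z - y ∈ C} with hR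
  have hmk : 0 < m - κ := by linarith
  have hRmeas : MeasurableSet R := by
    refine hC.meas.inter ?_
    exact (by fun_prop : Measurable fun y : Fin d → ℝ => (m - κ) • z - y) hC.meas
  have h1 : volume R = ENNReal.ofReal ((m - κ) ^ d) * volume {y | y ∈ C ∧ z - y ∈ C} := by
    have h2 : R = (m - κ) • {y | y ∈ C ∧ z - y ∈ C} := by
      ext y
      rw [mem_smul_set_iff_inv_smul_mem₀ hmk.ne']
      simp only [hR, mem_ofPred_eq]
      rw [hC.smul_iff (inv_pos.2 hmk), ← hC.smul_iff hmk (z - (m - κ)⁻¹ • y), smul_sub, smul_smul,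
        mul_inv_cancel₀ hmk.ne', one_smul]
    rw [h2, Measure.addHaar_smul, Module.finrank_fin_fun, abs_of_pos (by positivity)]
  -- the shifted region
  set f : (Fin d → ℝ) → ℝ≥0∞ := fun y => R.indicator (fun _ => (1 : ℝ≥0∞)) (y - (q + one)) with hf
  have h3 : ∫⁻ y, f y = volume R := by
    have h4 : ∫⁻ y, f y = ∫⁻ y, R.indicator (fun _ => (1 : ℝ≥0∞)) y :=
      lintegral_sub_right_eq_self (μ := (volume : Measure (Fin d → ℝ)))
        (fun y => R.indicator (fun _ => (1 : ℝ≥0∞)) y) (q + one)
    rw [h4, lintegral_indicator hRmeas, setLIntegral_const, one_mul]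
  rw [← h1, ← h3, lintegral_cubes]
  refine ENNReal.tsum_le_tsum fun x => ?_
  by_cases hx : re x ∈ A
  · rw [indicator_of_mem hx]
    calc ∫⁻ y in cube x, f y ≤ ∫⁻ _ in cube x, 1 := by
          refine lintegral_mono fun y => ?_
          simp only [hf]
          exact indicator_le_self' (fun _ _ => zero_le) _
      _ = 1 := by rw [setLIntegral_const, cube_vol, mul_one]
  · rw [indicator_of_notMem hx]
    have h5 : ∀ y ∈ cube x, f y = 0 := by
      intro y hy
      simp only [hf]
      refine indicator_of_notMem (fun hy2 => hx ?_) _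
      obtain ⟨ha, hb⟩ := hy2
      rw [mem_cube] at hy
      refine ⟨?_, ?_⟩
      · have e1 : re x = (y - (q + one)) + (q + (one - (y - re x))) := by abel
        rw [e1]
        refine hC.add _ ha _ (hq _ fun i => ?_)
        have := hy i
        simp only [Pi.sub_apply, re, hone]
        constructor <;> linarith
      · have e1 : m • z - re x = ((m - κ) • z - (y - (q + one))) +
            ((κ • z - ((2 : ℝ) • q + one)) + (q + (y - re x))) := by
          rw [sub_smul, two_smul]
          abel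
        rw [e1]
        refine hC.add _ hb _ (hC.add _ hκC _ (hq _ fun i => ?_))
        have := hy i
        simp only [Pi.sub_apply, re]
        constructor <;> linarith
    rw [setLIntegral_congr_fun (cube_meas x) h5]
    simp

end Pool.Agent.Helper80.MAH
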