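import Mathlib

/-!
Approximation of a convex body by polytopes, for the Mahler volume.
-/

set_option autoImplicit false

noncomputable section

open MeasureTheory Set
open scoped Pointwise ENNReal Topology

namespace Pool.Agent.Helper80.MAH

variable {n : ℕ}

/-- support function -/
def hsu (K : Set (Fin n → ℝ)) (y : Fin n → ℝ) : ℝ :=
  sSup ((fun x : Fin n → ℝ => ∑ i, x i * y i) '' K)

lemma smul_subset_interior {K : Set (Fin n → ℝ)} (hv : Convex ℝ K)
    (h0 : (0 : Fin n → ℝ) ∈ interior K) {r : ℝ} (hr : 0 ≤ r) (hr1 : r < 1) :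
    r • K ⊆ interior K := by
  rintro _ ⟨x, hx, rfl⟩
  have h := hv.combo_interior_self_mem_interior h0 hx (a := 1 - r) (b := r) (by linarith) hr
    (by ring)
  simpa using h

/-- a compact subset of an open convex set is contained in a polytope of the set -/
lemma exists_hull {L U : Set (Fin n → ℝ)} (hL : IsCompact L) (hU : IsOpen U)
    (hLU : L ⊆ U) : ∃ s : Finset (Fin n → ℝ), (s : Set (Fin n → ℝ)) ⊆ U ∧
      L ⊆ interior (convexHull ℝ (s : Set (Fin n → ℝ))) := by
  classical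
  have h1 : ∀ x ∈ L, ∃ s : Finset (Fin n → ℝ), (s : Set (Fin n → ℝ)) ⊆ U ∧
      x ∈ interior (convexHull ℝ (s : Set (Fin n → ℝ))) := by
    intro x hx
    obtain ⟨b, hb, hbU⟩ := exists_mem_interior_convexHull_affineBasis (hU.mem_nhds (hLU hx))
    refine ⟨Finset.univ.image b, ?_, ?_⟩
    · intro y hy
      simp only [Finset.coe_image, Finset.coe_univ, Set.image_univ] at hy
      exact hbU (subset_convexHull ℝ _ hy)
    · simpa only [Finset.coe_image, Finset.coe_univ, Set.image_univ] using hb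
  choose! f hfU hf using h1
  obtain ⟨t, htL, ht⟩ := hL.elim_nhds_subcover
    (fun x => interior (convexHull ℝ (f x : Set (Fin n → ℝ))))
    (fun x hx => isOpen_interior.mem_nhds (hf x hx))
  refine ⟨t.biUnion f, ?_, ?_⟩
  · intro y hy
    simp only [Finset.coe_biUnion, mem_iUnion] at hy
    obtain ⟨x, hx, hy⟩ := hy
    exact hfU x (htL x hx) hy
  · intro y hy
    obtain ⟨x, hx, hxy⟩ := mem_iUnion₂.1 (ht hy)
    refine interior_mono (convexHull_mono ?_) hxy
    intro z hz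
    simp only [Finset.coe_biUnion, mem_iUnion]
    exact ⟨x, hx, hz⟩

lemma exists_polytope {K : Set (Fin n → ℝ)} (hc : IsCompact K) (hv : Convex ℝ K)
    (h0 : (0 : Fin n → ℝ) ∈ interior K) {r : ℝ} (hr : 0 ≤ r) (hr1 : r < 1) :
    ∃ s : Finset (Fin n → ℝ), (s : Set (Fin n → ℝ)) ⊆ K ∧
      r • K ⊆ convexHull ℝ (s : Set (Fin n → ℝ)) ∧
      (0 : Fin n → ℝ) ∈ interior (convexHull ℝ (s : Set (Fin n → ℝ))) := by
  obtain ⟨s, hsU, hs⟩ := exists_hull (hc.smul r) isOpen_interior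
    (smul_subset_interior hv h0 hr hr1)
  refine ⟨s, hsU.trans interior_subset, hs.trans interior_subset, hs ?_⟩
  exact ⟨0, interior_subset h0, by simp⟩

lemma bdd_hsu {K : Set (Fin n → ℝ)} (hc : IsCompact K) (y : Fin n → ℝ) :
    BddAbove ((fun x : Fin n → ℝ => ∑ i, x i * y i) '' K) :=
  (hc.image (by fun_prop : Continuous fun x : Fin n → ℝ => ∑ i, x i * y i)).bddAbove

lemma hsu_mono {K L : Set (Fin n → ℝ)} (hK : K.Nonempty) (hKL : K ⊆ L) (hL : IsCompact L)
    (y : Fin n → ℝ) : hsu K y ≤ hsu L y :=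
  csSup_le_csSup (bdd_hsu hL y) (hK.image _) (image_mono hKL)

lemma hsu_smul {K : Set (Fin n → ℝ)} (r : ℝ) (y : Fin n → ℝ) : hsu (r • K) y = hsu K (r • y) := by
  unfold hsu
  congr 1
  ext a
  simp only [mem_image, mem_smul_set]
  constructor
  · rintro ⟨_, ⟨x, hx, rfl⟩, rfl⟩
    refine ⟨x, hx, ?_⟩
    refine Finset.sum_congr rfl fun i _ => ?_
    simp only [Pi.smul_apply, smul_eq_mul]
    ring
  · rintro ⟨x, hx, rfl⟩
    refine ⟨r • x, ⟨x, hx, rfl⟩, ?_⟩
    refine Finset.sum_congr rfl fun i _ => ?_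
    simp only [Pi.smul_apply, smul_eq_mul]
    ring

lemma lintegral_smul' (f : (Fin n → ℝ) → ℝ≥0∞) {r : ℝ} (hr : 0 < r) :
    ENNReal.ofReal (r ^ n) * ∫⁻ y, f (r • y) = ∫⁻ y, f y := by
  have h1 := Measure.map_addHaar_smul (volume : Measure (Fin n → ℝ)) hr.ne'
  have h2 : ∫⁻ y, f (r • y) =
      ∫⁻ y, f y ∂(Measure.map (r • ·) (volume : Measure (Fin n → ℝ))) := by
    have h3 := lintegral_map_equiv (μ := (volume : Measure (Fin n → ℝ))) f
      (Homeomorph.smulOfNeZero r hr.ne').toMeasurableEquiv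
    exact h3.symm
  rw [h2, h1, lintegral_smul_measure, smul_eq_mul, ← mul_assoc, ← ENNReal.ofReal_mul (by positivity),
    Module.finrank_fin_fun, abs_of_pos (by positivity), mul_inv_cancel₀ (by positivity),
    ENNReal.ofReal_one, one_mul]

/-- reduction of a lower bound of the Mahler volume to polytopes -/
theorem of_polytopes {B : ℝ≥0∞}
    (h : ∀ s : Finset (Fin n → ℝ), (0 : Fin n → ℝ) ∈ interior (convexHull ℝ (s : Set (Fin n → ℝ))) →
      B ≤ volume (convexHull ℝ (s : Set (Fin n → ℝ))) *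
        ∫⁻ y, ENNReal.ofReal (Real.exp (-(hsu (convexHull ℝ (s : Set (Fin n → ℝ))) y))))
    {K : Set (Fin n → ℝ)} (hc : IsCompact K) (hv : Convex ℝ K)
    (h0 : (0 : Fin n → ℝ) ∈ interior K) :
    B ≤ volume K * ∫⁻ y, ENNReal.ofReal (Real.exp (-(hsu K y))) := by
  have hne : K.Nonempty := ⟨0, interior_subset h0⟩
  set M := volume K * ∫⁻ y, ENNReal.ofReal (Real.exp (-(hsu K y))) with hM
  have h1 : ∀ r : ℝ, 0 < r → r < 1 → ENNReal.ofReal (r ^ n) * B ≤ M := by
    intro r hr hr1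
    obtain ⟨s, hsK, hrK, hs0⟩ := exists_polytope hc hv h0 hr.le hr1
    set P := convexHull ℝ (s : Set (Fin n → ℝ)) with hP
    have hPK : P ⊆ K := convexHull_min hsK hv
    have hPc : IsCompact P := s.finite_toSet.isCompact_convexHull ℝ
    have h2 : ∫⁻ y, ENNReal.ofReal (Real.exp (-(hsu P y))) ≤
        ∫⁻ y, ENNReal.ofReal (Real.exp (-(hsu K (r • y)))) := by
      refine lintegral_mono fun y => ENNReal.ofReal_le_ofReal (Real.exp_le_exp.2 ?_)
      rw [← hsu_smul]
      exact neg_le_neg (hsu_mono (hne.smul_set) hrK hPc y)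
    have h3 : ENNReal.ofReal (r ^ n) * ∫⁻ y, ENNReal.ofReal (Real.exp (-(hsu K (r • y)))) =
        ∫⁻ y, ENNReal.ofReal (Real.exp (-(hsu K y))) :=
      lintegral_smul' (fun y => ENNReal.ofReal (Real.exp (-(hsu K y)))) hr
    calc ENNReal.ofReal (r ^ n) * B ≤ ENNReal.ofReal (r ^ n) * (volume P *
          ∫⁻ y, ENNReal.ofReal (Real.exp (-(hsu P y)))) := by gcongr; exact h s hs0
      _ ≤ ENNReal.ofReal (r ^ n) * (volume K *
          ∫⁻ y, ENNReal.ofReal (Real.exp (-(hsu K (r • y))))) := by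
          gcongr
      _ = volume K * (ENNReal.ofReal (r ^ n) *
          ∫⁻ y, ENNReal.ofReal (Real.exp (-(hsu K (r • y))))) := by ring
      _ = M := by rw [h3]
  have h5 : Filter.Tendsto (fun r : ℝ => ENNReal.ofReal (r ^ n) * B) (𝓝[<] 1)
      (𝓝 (ENNReal.ofReal (1 ^ n) * B)) := by
    refine ENNReal.Tendsto.mul_const ?_ (Or.inl (by simp))
    refine (ENNReal.continuous_ofReal.tendsto _).comp ?_
    exact ((continuous_pow n).tendsto (1 : ℝ)).mono_left nhdsWithin_le_nhds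
  rw [one_pow, ENNReal.ofReal_one, one_mul] at h5
  refine le_of_tendsto h5 ?_
  filter_upwards [Ioo_mem_nhdsLT (show (0 : ℝ) < 1 by norm_num)] with r hr
  exact h1 r hr.1 hr.2

end Pool.Agent.Helper80.MAH
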